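import Pool.Agent.H207.TF.Stm

/-!
# Analytic Hensel lemma
-/

set_option autoImplicit false

open Metric Set Filter Topology Polynomial

namespace Pool.Agent.H277.TF207

/-- the polynomial with the lower coefficients `a` -/
noncomputable def LL (n : ℕ) (a : Fin n → ℂ) : ℂ[X] := ∑ i, C (a i) * X ^ (i : ℕ)

/-- the monic polynomial of degree `n` with the lower coefficients `a` -/
noncomputable def PL (n : ℕ) (a : Fin n → ℂ) : ℂ[X] := X ^ n + LL n a

theorem coeff_LL (n : ℕ) (a : Fin n → ℂ) (j : ℕ) :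
    (LL n a).coeff j = if h : j < n then a ⟨j, h⟩ else 0 := by
  unfold LL
  rw [finsetSum_coeff]
  simp only [coeff_C_mul, coeff_X_pow]
  split_ifs with h
  · rw [Finset.sum_eq_single (⟨j, h⟩ : Fin n)]
    · simp
    · intro b _ hb
      rw [if_neg, mul_zero]
      intro hh
      exact hb (Fin.ext hh.symm)
    · intro hh
      exact absurd (Finset.mem_univ _) hh
  · apply Finset.sum_eq_zero
    intro b _
    rw [if_neg, mul_zero]
    intro hh
    exact h (hh ▸ b.2)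

theorem degree_LL_lt (n : ℕ) (a : Fin n → ℂ) : (LL n a).degree < n := by
  rw [degree_lt_iff_coeff_zero]
  intro j hj
  rw [coeff_LL, dif_neg (by omega)]

theorem monic_PL (n : ℕ) (a : Fin n → ℂ) : (PL n a).Monic := monic_X_pow_add (degree_LL_lt n a)

theorem natDegree_PL (n : ℕ) (a : Fin n → ℂ) : (PL n a).natDegree = n := by
  unfold PL
  rw [natDegree_add_eq_left_of_degree_lt, natDegree_X_pow]
  rw [degree_X_pow]
  exact degree_LL_lt n a

theorem coeff_PL (n : ℕ) (a : Fin n → ℂ) (j : ℕ) :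
    (PL n a).coeff j = (if h : j < n then a ⟨j, h⟩ else 0) + (if j = n then 1 else 0) := by
  unfold PL
  rw [coeff_add, coeff_LL, coeff_X_pow, add_comm]

theorem PL_of_monic (g : ℂ[X]) (hg : g.Monic) :
    PL g.natDegree (fun i => g.coeff i) = g := by
  ext j
  rw [coeff_PL]
  rcases lt_trichotomy j g.natDegree with h | h | h
  · rw [dif_pos h, if_neg h.ne, add_zero]
  · rw [dif_neg (by omega), if_pos h, zero_add, h, hg.coeff_natDegree]
  · rw [dif_neg (by omega), if_neg h.ne', add_zero, coeff_eq_zero_of_natDegree_lt h]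

theorem PL_line (n : ℕ) (a v : Fin n → ℂ) (t : ℂ) :
    PL n (a + t • v) = PL n a + C t * LL n v := by
  ext j
  rw [coeff_add, coeff_C_mul, coeff_PL, coeff_PL, coeff_LL]
  split_ifs with h1 h2
  all_goals simp
  all_goals ring

/-- the coefficients of the product -/
noncomputable def MM (m₁ m₂ : ℕ) (x : (Fin m₁ → ℂ) × (Fin m₂ → ℂ)) : Fin (m₁ + m₂) → ℂ :=
  fun k => (PL m₁ x.1 * PL m₂ x.2).coeff k

theorem contDiff_coeff (n j : ℕ) : ContDiff ℂ 1 (fun a : Fin n → ℂ => (PL n a).coeff j) := by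
  simp only [coeff_PL]
  by_cases h : j < n
  · simp only [h, dif_pos]
    exact (contDiff_apply ℂ ℂ (⟨j, h⟩ : Fin n)).add contDiff_const
  · simp only [h, dif_neg, not_false_eq_true]
    exact contDiff_const

theorem contDiff_MM (m₁ m₂ : ℕ) : ContDiff ℂ 1 (MM m₁ m₂) := by
  rw [contDiff_pi]
  intro k
  unfold MM
  simp only [coeff_mul]
  refine ContDiff.sum fun y _ => ?_
  exact ((contDiff_coeff m₁ y.1).comp contDiff_fst).mul
    ((contDiff_coeff m₂ y.2).comp contDiff_snd)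

theorem quad (c₀ c₁ c₂ : ℂ) : HasDerivAt (fun t : ℂ => c₀ + t * c₁ + t ^ 2 * c₂) c₁ 0 := by
  have h5 := (((hasDerivAt_id (0 : ℂ)).mul_const c₁).const_add c₀).add
    ((hasDerivAt_pow 2 (0 : ℂ)).mul_const c₂)
  exact h5.congr_deriv (by simp)

theorem fderiv_MM (m₁ m₂ : ℕ) (x v : (Fin m₁ → ℂ) × (Fin m₂ → ℂ)) (k : Fin (m₁ + m₂)) :
    fderiv ℂ (MM m₁ m₂) x v k = (LL m₁ v.1 * PL m₂ x.2 + PL m₁ x.1 * LL m₂ v.2).coeff k := by
  have hM : HasFDerivAt (MM m₁ m₂) (fderiv ℂ (MM m₁ m₂) x) x :=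
    ((contDiff_MM m₁ m₂).differentiable (by norm_num) x).hasFDerivAt
  have hγ : HasDerivAt (fun t : ℂ => x + t • v) v 0 := by
    have h1 := ((hasDerivAt_id (0 : ℂ)).smul_const v).const_add x
    simpa using h1
  have h0 : x + (0 : ℂ) • v = x := by simp
  have h1 : HasDerivAt (fun t : ℂ => MM m₁ m₂ (x + t • v)) (fderiv ℂ (MM m₁ m₂) x v) 0 := by
    have hM' : HasFDerivAt (MM m₁ m₂) (fderiv ℂ (MM m₁ m₂) x) (x + (0 : ℂ) • v) := by
      rw [h0]
      exact hM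
    exact hM'.comp_hasDerivAt 0 hγ
  have h2 := (hasDerivAt_pi.1 h1) k
  have h3 : (fun t : ℂ => MM m₁ m₂ (x + t • v) k) = fun t : ℂ =>
      (PL m₁ x.1 * PL m₂ x.2).coeff k +
        t * (LL m₁ v.1 * PL m₂ x.2 + PL m₁ x.1 * LL m₂ v.2).coeff k +
        t ^ 2 * (LL m₁ v.1 * LL m₂ v.2).coeff k := by
    funext t
    unfold MM
    rw [Prod.fst_add, Prod.snd_add, Prod.smul_fst, Prod.smul_snd, PL_line, PL_line,
      ← coeff_C_mul, ← coeff_C_mul, ← coeff_add, ← coeff_add]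
    congr 1
    rw [C_pow]
    ring
  have h4 : HasDerivAt (fun t : ℂ => (PL m₁ x.1 * PL m₂ x.2).coeff k +
        t * (LL m₁ v.1 * PL m₂ x.2 + PL m₁ x.1 * LL m₂ v.2).coeff k +
        t ^ 2 * (LL m₁ v.1 * LL m₂ v.2).coeff k)
      ((LL m₁ v.1 * PL m₂ x.2 + PL m₁ x.1 * LL m₂ v.2).coeff k) 0 := by
    exact quad _ _ _
  rw [h3] at h2
  exact h2.unique h4

theorem LL_eq_zero {n : ℕ} {a : Fin n → ℂ} (h : LL n a = 0) : a = 0 := by
  funext i
  have h1 := coeff_LL n a i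
  rw [h, coeff_zero, dif_pos i.2] at h1
  exact h1.symm

theorem inj_fderiv (m₁ m₂ : ℕ) (x : (Fin m₁ → ℂ) × (Fin m₂ → ℂ))
    (hc : IsCoprime (PL m₁ x.1) (PL m₂ x.2)) (v : (Fin m₁ → ℂ) × (Fin m₂ → ℂ))
    (hv : fderiv ℂ (MM m₁ m₂) x v = 0) : v = 0 := by
  have h1 : LL m₁ v.1 * PL m₂ x.2 + PL m₁ x.1 * LL m₂ v.2 = 0 := by
    ext j
    rw [coeff_zero]
    by_cases hj : j < m₁ + m₂
    · have h2 := fderiv_MM m₁ m₂ x v ⟨j, hj⟩
      rw [hv] at h2
      exact h2.symm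
    · have h3 : (LL m₁ v.1 * PL m₂ x.2 + PL m₁ x.1 * LL m₂ v.2).degree < ((m₁ + m₂ : ℕ) : WithBot ℕ) := by
        refine lt_of_le_of_lt (degree_add_le _ _) (max_lt ?_ ?_)
        · by_cases h0 : LL m₁ v.1 = 0
          · rw [h0, zero_mul, degree_zero]
            exact WithBot.bot_lt_coe _
          · have h4 := degree_LL_lt m₁ v.1
            rw [degree_eq_natDegree h0] at h4
            rw [degree_mul, degree_eq_natDegree h0, degree_eq_natDegree (monic_PL m₂ x.2).ne_zero,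
              natDegree_PL]
            have h5 : (LL m₁ v.1).natDegree < m₁ := by exact_mod_cast h4
            exact_mod_cast (by omega : (LL m₁ v.1).natDegree + m₂ < m₁ + m₂)
        · by_cases h0 : LL m₂ v.2 = 0
          · rw [h0, mul_zero, degree_zero]
            exact WithBot.bot_lt_coe _
          · have h4 := degree_LL_lt m₂ v.2
            rw [degree_eq_natDegree h0] at h4
            rw [degree_mul, degree_eq_natDegree h0, degree_eq_natDegree (monic_PL m₁ x.1).ne_zero,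
              natDegree_PL]
            have h5 : (LL m₂ v.2).natDegree < m₂ := by exact_mod_cast h4
            exact_mod_cast (by omega : m₁ + (LL m₂ v.2).natDegree < m₁ + m₂)
      exact coeff_eq_zero_of_degree_lt (h3.trans_le (by exact_mod_cast not_lt.1 hj))
  have h2 : PL m₁ x.1 ∣ LL m₁ v.1 * PL m₂ x.2 := by
    refine ⟨-LL m₂ v.2, ?_⟩
    linear_combination h1
  have h3 : PL m₁ x.1 ∣ LL m₁ v.1 := hc.dvd_of_dvd_mul_right h2
  have h4 : LL m₁ v.1 = 0 := by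
    refine eq_zero_of_dvd_of_degree_lt h3 ?_
    rw [degree_eq_natDegree (monic_PL m₁ x.1).ne_zero, natDegree_PL]
    exact degree_LL_lt m₁ v.1
  rw [h4, zero_mul, zero_add] at h1
  have h5 := (mul_eq_zero.1 h1).resolve_left (monic_PL m₁ x.1).ne_zero
  exact Prod.ext (LL_eq_zero h4) (LL_eq_zero h5)

theorem hens (w : ℂ → ℂ[X]) (ρ : ℝ) (m : ℕ) (hρ : 0 < ρ)
    (hw : ∀ s, ‖s‖ < ρ → (w s).Monic ∧ (w s).natDegree = m)
    (hd : ∀ (i : ℕ) (s : ℂ), ‖s‖ < ρ → DifferentiableAt ℂ (fun t => (w t).coeff i) s)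
    (g h : ℂ[X]) (hg : g.Monic) (hh : h.Monic) (hc : IsCoprime g h) (h0 : w 0 = g * h) :
      ∃ (G H : ℂ → ℂ[X]) (ε : ℝ), 0 < ε ∧ ε ≤ ρ ∧ ∀ s, ‖s‖ < ε → (G s).Monic ∧
        (G s).natDegree = g.natDegree ∧ (H s).Monic ∧ (H s).natDegree = h.natDegree ∧
        w s = G s * H s ∧ ∀ i : ℕ, DifferentiableAt ℂ (fun t => (G t).coeff i) s ∧
          DifferentiableAt ℂ (fun t => (H t).coeff i) s := by
  obtain ⟨m₁, hm₁⟩ : ∃ n, n = g.natDegree := ⟨_, rfl⟩
  obtain ⟨m₂, hm₂⟩ : ∃ n, n = h.natDegree := ⟨_, rfl⟩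
  rw [← hm₁, ← hm₂]
  obtain ⟨a₀, ha₀⟩ : ∃ a₀ : Fin m₁ → ℂ, PL m₁ a₀ = g := by
    subst hm₁
    exact ⟨_, PL_of_monic g hg⟩
  obtain ⟨b₀, hb₀⟩ : ∃ b₀ : Fin m₂ → ℂ, PL m₂ b₀ = h := by
    subst hm₂
    exact ⟨_, PL_of_monic h hh⟩
  have hm : m = m₁ + m₂ := by
    have h1 := (hw 0 (by simpa using hρ)).2
    rw [h0, hg.natDegree_mul hh, ← hm₁, ← hm₂] at h1
    exact h1.symm
  let E := (Fin m₁ → ℂ) × (Fin m₂ → ℂ)
  let x₀ : E := (a₀, b₀)
  have hinj : Function.Injective (fderiv ℂ (MM m₁ m₂) x₀) := by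
    rw [injective_iff_map_eq_zero]
    intro v hv
    refine inj_fderiv m₁ m₂ x₀ ?_ v hv
    show IsCoprime (PL m₁ a₀) (PL m₂ b₀)
    rw [ha₀, hb₀]
    exact hc
  have hsurj : Function.Surjective (fderiv ℂ (MM m₁ m₂) x₀) := by
    have h1 := LinearMap.injective_iff_surjective_of_finrank_eq_finrank
      (f := (fderiv ℂ (MM m₁ m₂) x₀ : E →ₗ[ℂ] (Fin (m₁ + m₂) → ℂ))) (by
        show Module.finrank ℂ ((Fin m₁ → ℂ) × (Fin m₂ → ℂ)) = _
        rw [Module.finrank_prod, Module.finrank_fin_fun, Module.finrank_fin_fun,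
          Module.finrank_fin_fun])
    exact h1.1 hinj
  let e : E ≃L[ℂ] (Fin (m₁ + m₂) → ℂ) := ContinuousLinearEquiv.ofBijective
    (fderiv ℂ (MM m₁ m₂) x₀) (LinearMap.ker_eq_bot.2 hinj) (LinearMap.range_eq_top.2 hsurj)
  have he : HasFDerivAt (MM m₁ m₂) (e : E →L[ℂ] (Fin (m₁ + m₂) → ℂ)) x₀ := by
    have h1 : (e : E →L[ℂ] (Fin (m₁ + m₂) → ℂ)) = fderiv ℂ (MM m₁ m₂) x₀ :=
      ContinuousLinearEquiv.coe_ofBijective _ _ _
    rw [h1]
    exact ((contDiff_MM m₁ m₂).differentiable (by norm_num) x₀).hasFDerivAt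
  have hcd : ContDiffAt ℂ 1 (MM m₁ m₂) x₀ := (contDiff_MM m₁ m₂).contDiffAt
  have hN1 := hcd.to_localInverse he one_ne_zero
  have hN2 : ∀ᶠ y in 𝓝 (MM m₁ m₂ x₀), MM m₁ m₂ (hcd.localInverse he one_ne_zero y) = y :=
    (hcd.hasStrictFDerivAt' he one_ne_zero).eventually_right_inverse
  have hN3 : ∀ᶠ y in 𝓝 (MM m₁ m₂ x₀),
      DifferentiableAt ℂ (hcd.localInverse he one_ne_zero) y := by
    filter_upwards [hN1.eventually (by simp)] with y hy
    exact hy.differentiableAt (by norm_num)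
  generalize hcd.localInverse he one_ne_zero = N at hN1 hN2 hN3
  let y : ℂ → (Fin (m₁ + m₂) → ℂ) := fun s k => (w s).coeff k
  have hy : ∀ s, ‖s‖ < ρ → DifferentiableAt ℂ y s := fun s hs =>
    differentiableAt_pi.2 fun k => hd k s hs
  have hy0 : y 0 = MM m₁ m₂ x₀ := by
    funext k
    show (w 0).coeff k = (PL m₁ a₀ * PL m₂ b₀).coeff k
    rw [h0, ha₀, hb₀]
  have hcont : Tendsto y (𝓝 0) (𝓝 (MM m₁ m₂ x₀)) := by
    rw [← hy0]
    exact (hy 0 (by simpa using hρ)).continuousAt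
  obtain ⟨ε, hε, hev⟩ := Metric.eventually_nhds_iff.1
    ((hcont.eventually hN2).and (hcont.eventually hN3))
  refine ⟨fun s => PL m₁ (N (y s)).1, fun s => PL m₂ (N (y s)).2, min ε ρ, lt_min hε hρ,
    min_le_right _ _, fun s hs => ?_⟩
  have hs1 : ‖s‖ < ρ := hs.trans_le (min_le_right _ _)
  obtain ⟨h1, h2⟩ := hev (y := s) (by
    rw [dist_zero_right]
    exact hs.trans_le (min_le_left _ _))
  refine ⟨monic_PL _ _, natDegree_PL _ _, monic_PL _ _, natDegree_PL _ _, ?_, fun i => ?_⟩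
  · obtain ⟨h3, h4⟩ := hw s hs1
    have h5 : (PL m₁ (N (y s)).1 * PL m₂ (N (y s)).2).Monic := (monic_PL _ _).mul (monic_PL _ _)
    have h6 : (PL m₁ (N (y s)).1 * PL m₂ (N (y s)).2).natDegree = m₁ + m₂ := by
      rw [(monic_PL _ _).natDegree_mul (monic_PL _ _), natDegree_PL, natDegree_PL]
    ext j
    rcases lt_trichotomy j (m₁ + m₂) with h7 | h7 | h7
    · exact (congrFun h1 ⟨j, h7⟩).symm
    · have h8 := h3.coeff_natDegree
      have h9 := h5.coeff_natDegree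
      rw [h4, hm] at h8
      rw [h6] at h9
      rw [h7, h8, h9]
    · rw [coeff_eq_zero_of_natDegree_lt (by rw [h4, hm]; exact h7),
        coeff_eq_zero_of_natDegree_lt (by rw [h6]; exact h7)]
  · have h3 : DifferentiableAt ℂ (fun t => N (y t)) s := h2.comp s (hy s hs1)
    constructor
    · exact (((contDiff_coeff m₁ i).differentiable (by norm_num)) _).comp s h3.fst
    · exact (((contDiff_coeff m₂ i).differentiable (by norm_num)) _).comp s h3.snd

theorem t_HENS : Pool.Agent.H207.TF.S_HENS :=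
  fun w ρ m hρ hw hd g h hg hh hc h0 => hens w ρ m hρ hw hd g h hg hh hc h0

end Pool.Agent.H277.TF207
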